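import Pool.Agent.W8.LS.Main
import Pool.Agent.W115.LS.SingClosed
import Pool.Agent.W119.LS.Neck
import Pool.Agent.W8.LS.SeparateFix
import Pool.Agent.W274.LS.HfBasic
import Pool.Agent.W274.LS.NearSite
import Pool.Agent.W287.LS.GabJou
import Pool.Agent.W379.LS.CoshInv
import Pool.Agent.W379.LS.LocInj
import Pool.Agent.W391.LS.SiteSmooth
import Pool.Agent.W408.LS.CoshBranch
import Pool.Agent.W428.LS.RelEquiv
import Pool.Agent.W491.LS.CompactCover
import Pool.Agent.W494.LS.LamReg
import Pool.Agent.W538.LS.CompactM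
import Pool.Agent.W538.LS.GabInj
import Pool.Agent.W55.LS.PtEq
import Pool.Agent.W557.LS.CoshBasic
import Pool.Agent.W566.LS.AllTrans
import Pool.Agent.W566.LS.RelClosed
import Pool.Agent.W584.LS.LTSymm
import Pool.Agent.W584.LS.LTTrans
import Pool.Agent.W592.LS.GabRe
import Pool.Agent.W60.LS.PhiImm
import Pool.Agent.W625.LS.ActSite
import Pool.Agent.W625.LS.Lam
import Pool.Agent.W625.LS.SingRel
import Pool.Agent.W685.LS.PhiInj
import Pool.Agent.W697.LS.Cover
import Pool.Agent.W697.LS.Flip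
import Pool.Agent.W701.LS.ChCont
import Pool.Agent.W701.LS.LTRA
import Pool.Agent.W701.LS.LTRB
import Pool.Agent.W701.LS.LTRR
import Pool.Agent.W701.LS.LamInj
import Pool.Agent.W705.LS.InjAB
import Pool.Agent.W705.LS.LTAA
import Pool.Agent.W705.LS.LTAB
import Pool.Agent.W705.LS.LTBB
import Pool.Agent.W73.LS.LamLevel
import Pool.Agent.W755.LS.DomOpen
import Pool.Agent.W755.LS.GlueT2
import Pool.Agent.W755.LS.PhiRay
import Pool.Agent.W756.LS.GabImm
import Pool.Agent.W766.LS.ActSmooth
import Pool.Agent.W850.LS.LamBranch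
import Pool.Agent.W922.LS.GRad
import Pool.Agent.W962.LS.GlueHomeo
import Pool.Agent.W977.LS.SingAB
import Pool.Agent.W977.LS.SiteRel

/-!
MP_89d91e_gt: a closed symplectic manifold of dimension 6 containing infinitely many pairwise
disjoint Lagrangian spheres.
-/

open scoped Topology ContDiff

namespace Pool.Agent.Results.MP_89d91e_gt.DisjointLagrangianSpheres

noncomputable section

/-- `R^m` -/
abbrev Eu (m : ℕ) : Type := EuclideanSpace ℝ (Fin m)

/-- `R^{2n}`, as pairs `(x, y)` of vectors of `R^n` -/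
abbrev Std (n : ℕ) : Type := Eu n × Eu n

/-- the standard symplectic form `dx_1 ∧ dy_1 + ... + dx_n ∧ dy_n` -/
def stdForm (n : ℕ) (a b : Std n) : ℝ := ∑ i, (a.1 i * b.2 i - a.2 i * b.1 i)

/-- the derivative of a map `R^{2n} → R^{2n}` -/
def derStd (n : ℕ) (f : Std n → Std n) (x a : Std n) : Std n := fderiv ℝ f x a

/-- the derivative of a map `R^m → R^{2n}` -/
def derSph (m n : ℕ) (f : Eu m → Std n) (x a : Eu m) : Std n := fderiv ℝ f x a

/-- `f` is smooth on `U` -/
def SmoothOn (n : ℕ) (f : Std n → Std n) (U : Set (Std n)) : Prop := ContDiffOn ℝ ∞ f U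

/-- the derivative of `f` at each point of `U` preserves the standard symplectic form -/
def SymplecticOn (n : ℕ) (f : Std n → Std n) (U : Set (Std n)) : Prop :=
  ∀ x ∈ U, ∀ a b : Std n, stdForm n (derStd n f x a) (derStd n f x b) = stdForm n a b

/-- charts of the topological space `X` with values in `R^{2n}` -/
abbrev Chart (n : ℕ) (X : Type) [TopologicalSpace X] : Type := OpenPartialHomeomorph X (Std n)

/-- coordinate change -/
def change (n : ℕ) {X : Type} [TopologicalSpace X] (e e' : Chart n X) : Chart n (Std n) :=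
  e.symm.trans e'

/-- `A` is an atlas of Darboux charts: charts with values in `R^{2n}` whose coordinate changes
are smooth and preserve the standard symplectic form. -/
def IsSymplecticAtlas (n : ℕ) {X : Type} [TopologicalSpace X] (A : Set (Chart n X)) : Prop :=
  (∀ x : X, ∃ e ∈ A, x ∈ e.source) ∧
  (∀ e ∈ A, ∀ e' ∈ A, SmoothOn n (change n e e') (change n e e').source) ∧
  (∀ e ∈ A, ∀ e' ∈ A, SymplecticOn n (change n e e') (change n e e').source)

/-- near `v` the map `f` is smooth, the kernel of its derivative at `v` is contained in the line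
`R v`, and the image of this derivative is isotropic -/
def LagrangianAt (m n : ℕ) (f : Eu m → Std n) (v : Eu m) : Prop :=
  ContDiffAt ℝ ∞ f v ∧ (∀ w : Eu m, derSph m n f v w = 0 → ∃ r : ℝ, w = r • v) ∧
    ∀ a b : Eu m, stdForm n (derSph m n f v a) (derSph m n f v b) = 0

/-- `S` is a Lagrangian sphere: the image of the unit sphere `S^n` of `R^{n+1}` under an
injective smooth immersion `φ` whose tangent spaces are isotropic.  The map is extended to
`R^{n+1} \ 0` by being constant on the open rays, so that in each chart `e` of the atlas the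
derivative of `e ∘ φ` at `v` has kernel exactly the line `R v`. -/
def IsLagrangianSphere (n : ℕ) {X : Type} [TopologicalSpace X] (A : Set (Chart n X))
    (S : Set X) : Prop :=
  ∃ φ : Eu (n + 1) → X,
    φ '' Metric.sphere 0 1 = S ∧ Set.InjOn φ (Metric.sphere 0 1) ∧
    (∀ v : Eu (n + 1), ∀ r : ℝ, 0 < r → φ (r • v) = φ v) ∧
    ContinuousOn φ {v | v ≠ 0} ∧
    ∀ v : Eu (n + 1), v ≠ 0 → ∀ e ∈ A, φ v ∈ e.source →
      LagrangianAt (n + 1) n (fun w => e (φ w)) v

theorem result :
    ∃ (X : Type) (_ : TopologicalSpace X) (A : Set (Chart 3 X)) (L : ℕ → Set X),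
      CompactSpace X ∧ T2Space X ∧ IsSymplecticAtlas 3 A ∧
      (∀ k, IsLagrangianSphere 3 A (L k)) ∧ ∀ j k, j ≠ k → Disjoint (L j) (L k) := by
  obtain ⟨X, τ, A, L, h1, h2, h3, h4, h5⟩ := Pool.Agent.W8.LS.goal_of_props
    Pool.Agent.W428.LS.RelEquiv.RelEquiv_proof
    Pool.Agent.W625.LSActSite.ActSite_proof
    Pool.Agent.W625.LSSingRel.SingRel_proof
    Pool.Agent.W55.LS.PtEq_proof
    Pool.Agent.W766.LS.ActSmooth_proof
    Pool.Agent.W391.LS.SiteSmooth.SiteSmooth_proof
    Pool.Agent.W697.LSF.Flip_proof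
    Pool.Agent.W566.LS.RelClosed_proof
    Pool.Agent.W115.LS.SingClosed_proof
    Pool.Agent.W379.LS.LocInj_proof
    Pool.Agent.W274.LS.NearSite_proof
    Pool.Agent.W625.LSSingRel.NearSing_proof
    Pool.Agent.W977.LS.SiteRel.SiteRel_proof
    Pool.Agent.W625.LSLam.SqBasic_proof
    Pool.Agent.W584.LS.LTSymm_proof
    Pool.Agent.W584.LS.LTTrans_proof
    Pool.Agent.W701.LS.LTRR.LTRR_proof
    Pool.Agent.W701.LS.LTRA.LTRA_proof
    Pool.Agent.W701.LS.LTRB.LTRB_proof
    Pool.Agent.W705.LS.LTAA_proof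
    Pool.Agent.W705.LS.LTBB_proof
    Pool.Agent.W705.LS.LTAB_proof
    Pool.Agent.W977.LS.SingAB.SingAB_proof
    Pool.Agent.W566.LS.AllTrans_proof
    Pool.Agent.W705.LS.InjA_proof
    Pool.Agent.W705.LS.InjB_proof
    Pool.Agent.W755.LS.DomOpen_proof
    Pool.Agent.W697.LSC.Cover_proof
    Pool.Agent.W962.LS.GlueHomeo_proof
    Pool.Agent.W755.LS.GlueT2_proof
    Pool.Agent.W8.LSSep.Separate_proof
    Pool.Agent.W701.LS.ChCont.ChCont_proof
    Pool.Agent.W491.LS.CompactCover_proof
    Pool.Agent.W538.LS.CompactM_proof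
    Pool.Agent.W922.LS.GRad_proof
    Pool.Agent.W538.LS.GabInj_proof
    Pool.Agent.W756.LS.GabImm_proof
    Pool.Agent.W287.LS.GabJou_proof
    Pool.Agent.W592.LS.GabRe_proof
    Pool.Agent.W274.LS.HfBasic_proof
    Pool.Agent.W557.LS.CoshBasic_proof
    Pool.Agent.W379.LS.CoshInv_proof
    Pool.Agent.W408.LS.CoshBranch_proof
    Pool.Agent.W625.LSLam.LamEq_proof
    Pool.Agent.W494.LS.LamReg_proof
    Pool.Agent.W850.LS.LamBranch_proof
    Pool.Agent.W625.LSLam.LamImm_proof
    Pool.Agent.W701.LS.LamInj.LamInj_proof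
    Pool.Agent.W625.LSSingRel.LamSep_proof
    Pool.Agent.W73.LS.LamLevel_proof
    Pool.Agent.W625.LSLam.LamShift_proof
    Pool.Agent.W119.LS.Neck_proof
    Pool.Agent.W625.LSLam.KapGt_proof
    Pool.Agent.W60.LS.PhiImm_proof
    Pool.Agent.W755.LS.PhiRay_proof
    Pool.Agent.W685.LS.PhiInj.PhiInj_proof
  exact ⟨X, τ, A, L, h1, h2, ⟨h3.cover, h3.smooth, h3.symplectic⟩, h4, h5⟩

end

end Pool.Agent.Results.MP_89d91e_gt.DisjointLagrangianSpheres
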